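import Pool.Agent.Q78.BetaT.Main

open Q78.BetaT

/-- Q1 (true): for all `(α, β)` with `1 < β ≤ 2`, `α ≥ 0`, `α + β ≤ 2` and `α ≤ 1 - 1/β` or
`α ≥ 1 + 1/β - β` (in particular for all `(α, β)` in the set `𝒞` of the question) the map
`T_{α,β}` is topologically transitive. -/
theorem Pool.Agent.Results.MP_ea58a7_an.TransitiveRegion.result
    (α β : ℝ) (h1 : 1 < β) (_h2 : β ≤ 2) (h3 : 0 ≤ α) (h4 : α + β ≤ 2)
    (h5 : α ≤ 1 - 1 / β ∨ 1 + 1 / β - β ≤ α) : TopTransitive (T α β) := by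
  by_contra hcon
  obtain ⟨h6, h7⟩ := of_not_transitive ⟨h1, h3, h4⟩ hcon
  rcases h5 with h5 | h5 <;> linarith
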